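import Pool.Agent.QNH.AnyH
import Pool.Agent.QR.MainE
import Pool.Agent.BKR.Baker

/-!
# Relations of any degree between logarithms: explicit triples, and the exceptional subspaces

Let `F = ℚ` and let `t_i` be logarithms of algebraic numbers, or let `Ω` be a lattice with
algebraic invariants, `F` its field of multiplications, and let `t_i` be elliptic logarithms
(`IsLogs`). Let `W = F + F t₁ + ⋯ + F t_r`.

* If `v₀, …, v_{d+1}` in `W` are linearly independent over `F`, then for all `j ∈ F` with at most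
  `(d - 1) binom(2d - 2, d - 1)` exceptions the numbers `v₀`, `v₁` and
  `v₂ + j v₃ + ⋯ + j ^ (d - 1) v_{d+1}` satisfy no nonzero homogeneous relation of degree `d` with
  algebraic coefficients.
* In general: number and dimension of the maximal subspaces of `W` which consist of numbers `y`
  such that `x₁, …, x_k, y / y₀` satisfy a nonzero relation of degree at most `d`.
-/

namespace Pool.Agent.HeldC97.AnyDegreeH

open Module Submodule

/-- `F = ℚ` and all `exp (t i)` are algebraic; or, for a lattice `Ω = ℤ ω₁ + ℤ ω₂` with algebraic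
invariants `g₂, g₃`, `F` is the field of the `c` with `c Ω ⊂ ℚ Ω`, and each `t i` is in `Ω` or
`℘ (t i)` is algebraic. -/
def IsLogs (F : Subfield ℂ) {r : ℕ} (t : Fin r → ℂ) : Prop :=
  ((∀ c : ℂ, c ∈ F ↔ ∃ q : ℚ, c = q) ∧ ∀ i, IsAlgebraic ℚ (Complex.exp (t i))) ∨
    ∃ ω₁ ω₂ : ℂ, (ω₂ / ω₁).im ≠ 0 ∧
      IsAlgebraic ℚ (60 * ∑' q : ℤ × ℤ,
        if q = 0 then (0 : ℂ) else 1 / ((q.1 : ℂ) * ω₁ + (q.2 : ℂ) * ω₂) ^ 4) ∧
      IsAlgebraic ℚ (140 * ∑' q : ℤ × ℤ,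
        if q = 0 then (0 : ℂ) else 1 / ((q.1 : ℂ) * ω₁ + (q.2 : ℂ) * ω₂) ^ 6) ∧
      (∀ c : ℂ, c ∈ F ↔ ∃ a b a' b' : ℚ,
        c * ω₁ = (a : ℂ) * ω₁ + (b : ℂ) * ω₂ ∧ c * ω₂ = (a' : ℂ) * ω₁ + (b' : ℂ) * ω₂) ∧
      ∀ i, (∃ a b : ℤ, t i = (a : ℂ) * ω₁ + (b : ℂ) * ω₂) ∨
        IsAlgebraic ℚ (1 / t i ^ 2 + ∑' q : ℤ × ℤ,
          if q = 0 then (0 : ℂ) else
            (1 / (t i - ((q.1 : ℂ) * ω₁ + (q.2 : ℂ) * ω₂)) ^ 2
              - 1 / ((q.1 : ℂ) * ω₁ + (q.2 : ℂ) * ω₂) ^ 2))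

/-- The space `F + F t₁ + ⋯ + F t_r`. -/
noncomputable def W (F : Subfield ℂ) {r : ℕ} (t : Fin r → ℂ) : Submodule F ℂ :=
  span F (insert 1 (Set.range t))

private theorem facts {F : Subfield ℂ} {r : ℕ} {t : Fin r → ℂ} (h : IsLogs F t) :
    (∀ c ∈ F, IsAlgebraic ℚ c) ∧
      Pool.Agent.QNH.Free0 (algebraicClosure ℚ ℂ) (W F t) := by
  have key : (∀ c ∈ F, IsAlgebraic ℚ c) ∧
      Pool.Agent.QR.Free (algebraicClosure ℚ ℂ) (span F (Set.range t)) := by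
    rcases h with ⟨hF, he⟩ | ⟨ω₁, ω₂, him, hg2, hg3, hF, he⟩
    · exact ⟨fun c hc => by
        obtain ⟨q, rfl⟩ := (hF c).1 hc
        exact isAlgebraic_ratCast ℚ q,
        Pool.Agent.QR.free_logF (fun _ _ t ht he b b0 hb hb0 h =>
          Pool.Agent.BKR.baker t ht he b b0 hb hb0 h) F hF he⟩
    · obtain ⟨L, rfl, rfl⟩ := Pool.Agent.ZCM.exists_periodPair ω₁ ω₂ him
      have hg2' : IsAlgebraic ℚ L.g₂ := by rw [Pool.Agent.ZCM.g₂_eq_tsum]; exact hg2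
      have hg3' : IsAlgebraic ℚ L.g₃ := by rw [Pool.Agent.ZCM.g₃_eq_tsum]; exact hg3
      have hF' : ∀ c, c ∈ F ↔ c ∈ Pool.Agent.EBM.EndF L := fun c =>
        (hF c).trans (Pool.Agent.QR.endF_iff L c).symm
      have hp : ∀ i, t i ∈ Pool.Agent.EBM.ELog L := fun i => by
        rcases he i with ⟨a, b, hab⟩ | h
        · exact Or.inl (PeriodPair.mem_lattice.2 ⟨a, b, hab.symm⟩)
        · exact Or.inr (by rw [Pool.Agent.CHU.P_eq_tsum]; exact h)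
      exact ⟨fun c hc => Pool.Agent.EBM.endF_alg L ((hF' c).1 hc),
        Pool.Agent.QR.free_ell L hg2' hg3' F hF' hp⟩
  refine ⟨key.1, ?_⟩
  have hs : Pool.Agent.QR.Sub F (algebraicClosure ℚ ℂ) ℂ := fun c =>
    ⟨⟨c, mem_algebraicClosure_iff.2 (key.1 c c.2)⟩, rfl⟩
  have h1 := Pool.Agent.QNH.free0_of_free hs key.2
  have h2 : W F t = span F {(1 : ℂ)} ⊔ span F (Set.range t) := by
    rw [W, Set.insert_eq, span_union]
  rw [h2]
  exact h1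

private theorem finW (F : Subfield ℂ) {r : ℕ} (t : Fin r → ℂ) :
    FiniteDimensional F (W F t) ∧ finrank F (W F t) ≤ r + 1 := by
  classical
  have h1 : W F t = span F (Set.range (Fin.cons (1 : ℂ) t : Fin (r + 1) → ℂ)) := by
    rw [W, Fin.range_cons]
  rw [h1]
  refine ⟨FiniteDimensional.span_of_finite F (Set.finite_range _), ?_⟩
  have h2 := finrank_range_le_card (R := F) (Fin.cons (1 : ℂ) t : Fin (r + 1) → ℂ)
  rwa [Fintype.card_fin] at h2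

theorem result (F : Subfield ℂ) (r : ℕ) (t : Fin r → ℂ) (ht : IsLogs F t) :
    (∀ (d : ℕ), 0 < d → ∀ v : Fin (d + 2) → ℂ, (∀ i, v i ∈ W F t) → LinearIndependent F v →
      {j : F | ∃ P : MvPolynomial (Fin 3) ℂ, P ≠ 0 ∧ P.IsHomogeneous d ∧
        (∀ m, IsAlgebraic ℚ (P.coeff m)) ∧
          MvPolynomial.eval ![v 0, v 1, ∑ i : Fin d, (j : ℂ) ^ (i : ℕ) * v i.succ.succ] P =
            0}.encard ≤ ((d - 1) * (2 * d - 2).choose (d - 1) : ℕ)) ∧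
    ∀ (k d : ℕ), 0 < k → 0 < d → 0 < r → ∀ x : Fin k → ℂ,
      (∀ P : MvPolynomial (Fin k) ℂ, (∀ m, IsAlgebraic ℚ (P.coeff m)) →
        P.totalDegree ≤ d ^ (r + 1) → MvPolynomial.eval x P = 0 → P = 0) →
      ∀ y₀ ∈ W F t, y₀ ≠ 0 →
      ∃ (n : ℕ) (U : Fin n → Submodule F ℂ), n ≤ (r + d - 2).choose (d - 1) ∧
        ((∃ j, x j * y₀ ∈ W F t) → 2 ≤ r → n ≤ (r + d - 3).choose (d - 1)) ∧
        (∀ i, U i ≤ W F t ∧ finrank F (U i) ≤ (k + d).choose d) ∧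
        {y : ℂ | y ∈ W F t ∧ ∃ P : MvPolynomial (Fin (k + 1)) ℂ, P ≠ 0 ∧
          P.totalDegree ≤ d ∧ (∀ m, IsAlgebraic ℚ (P.coeff m)) ∧
            MvPolynomial.eval (Fin.cons (y / y₀) x : Fin (k + 1) → ℂ) P = 0} =
              ⋃ i, (U i : Set ℂ) := by
  obtain ⟨hfin, hfr⟩ := finW F t
  obtain ⟨hF, hW⟩ := facts ht
  refine ⟨fun d hd v hv hi => Pool.Agent.QNH.explicitHom F hF hW hd v hv hi,
    fun k d hk hd hr x hx y₀ hy hy0 => ?_⟩
  obtain ⟨n, U, h1, h2, h3, h4⟩ := Pool.Agent.QNH.general F hF hk hd hr hW hfr x hx hy hy0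
  exact ⟨n, U, h1, h2, h3, h4⟩

end Pool.Agent.HeldC97.AnyDegreeH
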