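import Pool.Agent.QN.FinN
import Pool.Agent.QR.MainE
import Pool.Agent.BKR.Baker

/-!
# Relations of any degree between given numbers and one more logarithm: number and dimension of
the exceptional subspaces
-/

namespace Pool.Agent.HeldC97.AnyDegreeS

open Module Submodule

theorem result (k d r : ℕ) (hk : 0 < k) (hd : 0 < d) (hr : 0 < r) (x : Fin k → ℂ)
    (hx : ∀ P : MvPolynomial (Fin k) ℂ, (∀ m, IsAlgebraic ℚ (P.coeff m)) →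
      P.totalDegree ≤ d ^ (r + 1) → MvPolynomial.eval x P = 0 → P = 0)
    (F : Subfield ℂ) (t : Fin r → ℂ)
    (hFt : ((∀ c : ℂ, c ∈ F ↔ ∃ q : ℚ, c = q) ∧ ∀ i, IsAlgebraic ℚ (Complex.exp (t i))) ∨
      ∃ ω₁ ω₂ : ℂ, (ω₂ / ω₁).im ≠ 0 ∧
        IsAlgebraic ℚ (60 * ∑' q : ℤ × ℤ,
          if q = 0 then (0 : ℂ) else 1 / ((q.1 : ℂ) * ω₁ + (q.2 : ℂ) * ω₂) ^ 4) ∧
        IsAlgebraic ℚ (140 * ∑' q : ℤ × ℤ,
          if q = 0 then (0 : ℂ) else 1 / ((q.1 : ℂ) * ω₁ + (q.2 : ℂ) * ω₂) ^ 6) ∧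
        (∀ c : ℂ, c ∈ F ↔ ∃ a b a' b' : ℚ,
          c * ω₁ = (a : ℂ) * ω₁ + (b : ℂ) * ω₂ ∧ c * ω₂ = (a' : ℂ) * ω₁ + (b' : ℂ) * ω₂) ∧
        ∀ i, (∃ a b : ℤ, t i = (a : ℂ) * ω₁ + (b : ℂ) * ω₂) ∨
          IsAlgebraic ℚ (1 / t i ^ 2 + ∑' q : ℤ × ℤ,
            if q = 0 then (0 : ℂ) else
              (1 / (t i - ((q.1 : ℂ) * ω₁ + (q.2 : ℂ) * ω₂)) ^ 2
                - 1 / ((q.1 : ℂ) * ω₁ + (q.2 : ℂ) * ω₂) ^ 2))) :
    ∃ (n : ℕ) (U : Fin n → Submodule F ℂ), n ≤ (r + d - 2).choose (d - 1) ∧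
      ((∃ j, x j ∈ span F (Set.range t)) → 2 ≤ r → n ≤ (r + d - 3).choose (d - 1)) ∧
      (∀ i, U i ≤ span F (Set.range t) ∧ finrank F (U i) < (k + d).choose d) ∧
      {y : ℂ | y ∈ span F (Set.range t) ∧ ∃ P : MvPolynomial (Fin (k + 1)) ℂ, P ≠ 0 ∧
        P.totalDegree ≤ d ∧ (∀ m, IsAlgebraic ℚ (P.coeff m)) ∧
          MvPolynomial.eval (Fin.cons y x : Fin (k + 1) → ℂ) P = 0} = ⋃ i, (U i : Set ℂ) := by
  classical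
  rcases hFt with ⟨hF, he⟩ | ⟨ω₁, ω₂, him, hg2, hg3, hF, he⟩
  · obtain ⟨n, U, h1, h2, h3, h4⟩ := Pool.Agent.QN.main F (fun c hc => by
      obtain ⟨q, rfl⟩ := (hF c).1 hc
      exact isAlgebraic_ratCast ℚ q) hk hd hr x hx t
      (Pool.Agent.QR.free_logF (fun _ _ t ht he b b0 hb hb0 h =>
        Pool.Agent.BKR.baker t ht he b b0 hb hb0 h) F hF he)
    exact ⟨n, U, h1, h2, h3, h4⟩
  · obtain ⟨L, rfl, rfl⟩ := Pool.Agent.ZCM.exists_periodPair ω₁ ω₂ him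
    have hg2' : IsAlgebraic ℚ L.g₂ := by rw [Pool.Agent.ZCM.g₂_eq_tsum]; exact hg2
    have hg3' : IsAlgebraic ℚ L.g₃ := by rw [Pool.Agent.ZCM.g₃_eq_tsum]; exact hg3
    have hF' : ∀ c, c ∈ F ↔ c ∈ Pool.Agent.EBM.EndF L := fun c =>
      (hF c).trans (Pool.Agent.QR.endF_iff L c).symm
    have hp : ∀ i, t i ∈ Pool.Agent.EBM.ELog L := fun i => by
      rcases he i with ⟨a, b, hab⟩ | h
      · exact Or.inl (PeriodPair.mem_lattice.2 ⟨a, b, hab.symm⟩)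
      · exact Or.inr (by rw [Pool.Agent.CHU.P_eq_tsum]; exact h)
    obtain ⟨n, U, h1, h2, h3, h4⟩ := Pool.Agent.QN.main F (fun c hc =>
      Pool.Agent.EBM.endF_alg L ((hF' c).1 hc)) hk hd hr x hx t
      (Pool.Agent.QR.free_ell L hg2' hg3' F hF' hp)
    exact ⟨n, U, h1, h2, h3, h4⟩

end Pool.Agent.HeldC97.AnyDegreeS
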