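import Pool.Agent.FN.MainU
import Pool.Agent.FN.TermsC
import Pool.Agent.FN.FinR
import Pool.Agent.FNX.Two
import Pool.Agent.QR.MainE
import Pool.Agent.BKR.Baker

/-!
# Almost all tuples of logarithms satisfy no relation of bounded size, of whatever degree

`Program p`: `p` is a list of polynomials, each a variable, an algebraic number, or the sum, the
product or a power (with ANY exponent) of entries further down the list. `Cx s P`: `P` is an entry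
of such a list of length `≤ s`. `Rel s x y`: a polynomial `P` of size `≤ s` vanishes at `(x, y)`, but
not at all `(x, y')`.

* A polynomial with `s` terms in `n` variables has size `≤ s * (3 * n + 2) + 1`.
* For all `l ≥ 2`, `s` and for all complex numbers `t i`, all but
  `C (log log X) ^ C / (log X) ^ 2 * N₁ ⋯ N_l` of the tuples `1 ≤ a i ≤ N i` have the property that
  no nonzero polynomial of size `≤ s` vanishes at the numbers `t i + log (a i)`.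
* The same with `k` ARBITRARY complex numbers `x j` added, for `C (log log X) ^ C / log X`.
* Systems of logarithms or elliptic logarithms of large finite rank: the exceptional coefficients
  lie on a hypersurface of bounded degree.
-/

namespace Pool.Agent.Results.MP_c9768e_nt.BoundedComplexity

open Pool.Agent.FN (Program)

/-- `P` is an entry of a program of length `≤ s` -/
def Cx (s : ℕ) {n : ℕ} (P : MvPolynomial (Fin n) ℂ) : Prop :=
  ∃ p, Program p ∧ p.length ≤ s ∧ P ∈ p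

/-- a polynomial `P` of size `≤ s` vanishes at `(x, y)`, but not at all `(x, y')` -/
def Rel (s : ℕ) {k l : ℕ} (x : Fin k → ℂ) (y : Fin l → ℂ) : Prop :=
  ∃ P : MvPolynomial (Fin (k + l)) ℂ, Cx s P ∧
    (∃ y' : Fin l → ℂ, MvPolynomial.eval (Fin.append x y') P ≠ 0) ∧
      MvPolynomial.eval (Fin.append x y) P = 0

/-- `F = ℚ` and all `exp (t i)` are algebraic; or, for a lattice `Ω = ℤ ω₁ + ℤ ω₂` with algebraic
invariants `g₂, g₃`, `F` is the field of the `c` with `c Ω ⊂ ℚ Ω`, and each `t i` is in `Ω` or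
`℘ (t i)` is algebraic. -/
def IsLogs (F : Subfield ℂ) {r : ℕ} (t : Fin r → ℂ) : Prop :=
  ((∀ c : ℂ, c ∈ F ↔ ∃ q : ℚ, c = q) ∧ ∀ i, IsAlgebraic ℚ (Complex.exp (t i))) ∨
    ∃ ω₁ ω₂ : ℂ, (ω₂ / ω₁).im ≠ 0 ∧
      IsAlgebraic ℚ (60 * ∑' q : ℤ × ℤ,
        if q = 0 then (0 : ℂ) else 1 / ((q.1 : ℂ) * ω₁ + (q.2 : ℂ) * ω₂) ^ 4) ∧
      IsAlgebraic ℚ (140 * ∑' q : ℤ × ℤ,
        if q = 0 then (0 : ℂ) else 1 / ((q.1 : ℂ) * ω₁ + (q.2 : ℂ) * ω₂) ^ 6) ∧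
      (∀ c : ℂ, c ∈ F ↔ ∃ a b a' b' : ℚ,
        c * ω₁ = (a : ℂ) * ω₁ + (b : ℂ) * ω₂ ∧ c * ω₂ = (a' : ℂ) * ω₁ + (b' : ℂ) * ω₂) ∧
      ∀ i, (∃ a b : ℤ, t i = (a : ℂ) * ω₁ + (b : ℂ) * ω₂) ∨
        IsAlgebraic ℚ (1 / t i ^ 2 + ∑' q : ℤ × ℤ,
          if q = 0 then (0 : ℂ) else
            (1 / (t i - ((q.1 : ℂ) * ω₁ + (q.2 : ℂ) * ω₂)) ^ 2
              - 1 / ((q.1 : ℂ) * ω₁ + (q.2 : ℂ) * ω₂) ^ 2))

theorem free {F : Subfield ℂ} {r : ℕ} {t : Fin r → ℂ} (h : IsLogs F t) :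
    Pool.Agent.QR.Free (algebraicClosure ℚ ℂ) (Submodule.span F (Set.range t)) := by
  rcases h with ⟨hF, he⟩ | ⟨ω₁, ω₂, him, hg2, hg3, hF, he⟩
  · exact Pool.Agent.QR.free_logF (fun _ _ t ht he b b0 hb hb0 h =>
      Pool.Agent.BKR.baker t ht he b b0 hb hb0 h) F hF he
  · obtain ⟨L, rfl, rfl⟩ := Pool.Agent.ZCM.exists_periodPair ω₁ ω₂ him
    have hg2' : IsAlgebraic ℚ L.g₂ := by rw [Pool.Agent.ZCM.g₂_eq_tsum]; exact hg2
    have hg3' : IsAlgebraic ℚ L.g₃ := by rw [Pool.Agent.ZCM.g₃_eq_tsum]; exact hg3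
    have hF' : ∀ c, c ∈ F ↔ c ∈ Pool.Agent.EBM.EndF L := fun c =>
      (hF c).trans (Pool.Agent.QR.endF_iff L c).symm
    have hp : ∀ i, t i ∈ Pool.Agent.EBM.ELog L := fun i => by
      rcases he i with ⟨a, b, hab⟩ | h
      · exact Or.inl (PeriodPair.mem_lattice.2 ⟨a, b, hab.symm⟩)
      · exact Or.inr (by rw [Pool.Agent.CHU.P_eq_tsum]; exact h)
    exact Pool.Agent.QR.free_ell L hg2' hg3' F hF' hp

theorem li {F : Subfield ℂ} {r : ℕ} {v : Fin r → ℂ} (h : IsLogs F v)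
    (hv : LinearIndependent F v) : LinearIndependent (algebraicClosure ℚ ℂ) v := by
  rw [Fintype.linearIndependent_iff]
  intro c hc
  refine (free h (Fin r) v (fun i => Submodule.subset_span ⟨i, rfl⟩) hv 0 c ?_).2
  rw [map_zero, zero_add, ← hc]
  exact Finset.sum_congr rfl fun i _ => (Algebra.smul_def _ _).symm

theorem Rel.badX {s k l : ℕ} {x : Fin k → ℂ} {y : Fin l → ℂ} (h : Rel s x y) :
    Pool.Agent.FNX.BadX s x y := by
  obtain ⟨P, ⟨p, hp, hs, hP⟩, h1, h2⟩ := h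
  exact ⟨p, hp, hs, P, hP, h1, h2⟩

theorem finite_box {l : ℕ} (N : Fin l → ℕ) (p : (Fin l → ℕ) → Prop) :
    {a : Fin l → ℕ | (∀ i, 1 ≤ a i ∧ a i ≤ N i) ∧ p a}.Finite := by
  refine (Fintype.piFinset fun i => Finset.Icc 1 (N i)).finite_toSet.subset fun a ha => ?_
  rw [Finset.mem_coe, Fintype.mem_piFinset]
  exact fun i => Finset.mem_Icc.2 (ha.1 i)

theorem result :
    (∀ (n s : ℕ) (P : MvPolynomial (Fin n) ℂ), (∀ e, IsAlgebraic ℚ (P.coeff e)) →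
      P.support.card ≤ s → Cx (s * (3 * n + 2) + 1) P) ∧
    (∀ l s : ℕ, 2 ≤ l → ∃ C : ℕ, ∀ (t : Fin l → ℂ) (X : ℕ), 16 ≤ X → ∀ N : Fin l → ℕ,
      (∀ i, X ≤ N i) → ({a : Fin l → ℕ | (∀ i, 1 ≤ a i ∧ a i ≤ N i) ∧
        ∃ P : MvPolynomial (Fin l) ℂ, Cx s P ∧ P ≠ 0 ∧
          MvPolynomial.eval (fun i => t i + ((Real.log (a i : ℝ) : ℝ) : ℂ)) P = 0}.ncard : ℝ) ≤
            C * Real.log (Real.log X) ^ C / Real.log X ^ 2 * ∏ i, (N i : ℝ)) ∧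
    (∀ k l s : ℕ, ∃ C : ℕ, ∀ (x : Fin k → ℂ) (t : Fin l → ℂ) (X : ℕ), 16 ≤ X →
      ∀ N : Fin l → ℕ, (∀ i, X ≤ N i) → ({a : Fin l → ℕ | (∀ i, 1 ≤ a i ∧ a i ≤ N i) ∧
        Rel s x fun i => t i + ((Real.log (a i : ℝ) : ℝ) : ℂ)}.ncard : ℝ) ≤
          C * Real.log (Real.log X) ^ C / Real.log X * ∏ i, (N i : ℝ)) ∧
    ∀ k l s : ℕ, ∃ E : ℕ, ∀ (x : Fin k → ℂ) (t : Fin l → ℂ) (r : ℕ), E ≤ r →
      ∀ v : Fin l → Fin r → ℂ,
        (∀ i, ∃ F : Subfield ℂ, IsLogs F (v i) ∧ LinearIndependent F (v i)) →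
          ∃ Q : MvPolynomial (Fin l × Fin r) (algebraicClosure ℚ ℂ), Q ≠ 0 ∧ Q.totalDegree ≤ E ∧
            ∀ m : Fin l × Fin r → algebraicClosure ℚ ℂ,
              (Rel s x fun i => t i + ∑ j, m (i, j) • v i j) → MvPolynomial.eval m Q = 0 := by
  refine ⟨fun n s P hP hs => ?_, fun l s hl => ?_, fun k l s => ?_, fun k l s => ?_⟩
  · obtain ⟨p, hp, hPp, hps⟩ := Pool.Agent.FN.program_of_terms P hP hs
    exact ⟨p, hp, hps, hPp⟩
  · obtain ⟨C, hC⟩ := Pool.Agent.FN.few_one l s hl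
    refine ⟨C, fun t X hX N hN => le_trans (Nat.cast_le.2 (Set.ncard_le_ncard ?_
      (finite_box N _))) (hC t X hX N hN)⟩
    rintro a ⟨ha, P, ⟨p, hp, hs, hP⟩, hP0, hPe⟩
    exact ⟨ha, p, hp, hs, P, hP, hP0, hPe⟩
  · obtain ⟨C, hC⟩ := Pool.Agent.FNX.few_two k l s
    refine ⟨C, fun x t X hX N hN => le_trans (Nat.cast_le.2 (Set.ncard_le_ncard ?_
      (finite_box N _))) (hC x t X hX N hN)⟩
    rintro a ⟨ha, hb⟩
    exact ⟨ha, hb.badX⟩
  · obtain ⟨E, r, h⟩ := Pool.Agent.FNX.key2 k l s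
    refine ⟨max E r, fun x t R hR v hv => ?_⟩
    obtain ⟨δ, hδ, Ψ, h0, hE, hr, hΨ⟩ := h x
    obtain ⟨Q, hQ, hQE, hQm⟩ := Pool.Agent.FN.finR_core hδ Ψ h0 hE hr t
      ((le_max_right E r).trans hR) v fun i => by
        obtain ⟨F, h1, h2⟩ := hv i
        exact li h1 h2
    exact ⟨Q, hQ, hQE.trans (le_max_left _ _), fun m hm => hQm m (hΨ _ hm.badX)⟩

end Pool.Agent.Results.MP_c9768e_nt.BoundedComplexity
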