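import Pool.Agent.QDen.TupT
import Pool.Agent.QDen.GrowT

/-!
# For almost all tuples of positive integers the logarithms satisfy no polynomial relation of
degree `≤ d`, also together with given numbers, with a bound for the exceptional set; growing
degree
-/

namespace Pool.Agent.Results.MP_c9768e_nt.DensityTuples

/-- the constants -/
theorem consts (C1 : ℝ) (m X0 e : ℕ) : ∃ C : ℕ, ∀ X : ℕ, 16 ≤ X →
    1 < Real.log X ∧ 1 ≤ Real.log (Real.log X) ∧
    (X0 ≤ X → C1 * Real.log (Real.log X) ^ m * Real.exp (-(e * Real.log (Real.log X))) ≤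
      C * Real.log (Real.log X) ^ C / Real.log X ^ e) ∧
    (X < X0 → 1 ≤ C * Real.log (Real.log X) ^ C / Real.log X ^ e) := by
  obtain ⟨C, hC⟩ := exists_nat_ge (max C1 (max (m : ℝ) (Real.log X0 ^ e)))
  have hC1 : C1 ≤ C := (le_max_left _ _).trans hC
  have hCm : m ≤ C := by
    have : (m : ℝ) ≤ C := (le_max_left _ _).trans ((le_max_right _ _).trans hC)
    exact_mod_cast this
  have hCX : Real.log X0 ^ e ≤ C := (le_max_right _ _).trans ((le_max_right _ _).trans hC)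
  refine ⟨C, fun X hX => ?_⟩
  have hX16 : (16 : ℝ) ≤ X := by exact_mod_cast hX
  have h16 : Real.exp 1 ≤ Real.log X := by
    have h1 : Real.log 16 ≤ Real.log X := Real.log_le_log (by norm_num) hX16
    have h2 : Real.log 16 = 4 * Real.log 2 := by
      rw [show (16 : ℝ) = 2 ^ 4 by norm_num, Real.log_pow]
      norm_num
    have h3 := Real.log_two_gt_d9
    have h4 := Real.exp_one_lt_d9
    linarith
  have hlog : 1 < Real.log X := lt_of_lt_of_le (by linarith [Real.exp_one_gt_d9]) h16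
  have hy : 1 ≤ Real.log (Real.log X) := by
    rw [Real.le_log_iff_exp_le (by linarith)]
    exact h16
  refine ⟨hlog, hy, fun _ => ?_, fun hX0 => ?_⟩
  · have h1 : Real.exp (-(e * Real.log (Real.log X))) = (Real.log X ^ e)⁻¹ := by
      rw [Real.exp_neg, Real.exp_nat_mul, Real.exp_log (by linarith)]
    rw [h1, div_eq_mul_inv]
    have h2 : Real.log (Real.log X) ^ m ≤ Real.log (Real.log X) ^ C := pow_le_pow_right₀ hy hCm
    gcongr
  · have h1 : Real.log X ^ e ≤ C := by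
      refine le_trans (pow_le_pow_left₀ (by linarith) (Real.log_le_log (by linarith) ?_) _) hCX
      exact_mod_cast hX0.le
    have h2 : 1 ≤ Real.log (Real.log X) ^ C := one_le_pow₀ hy
    rw [le_div_iff₀ (by positivity)]
    nlinarith [Nat.cast_nonneg (α := ℝ) C]

theorem trivial_bound {l : ℕ} (N : Fin l → ℕ) (p : (Fin l → ℕ) → Prop) :
    ({a : Fin l → ℕ | (∀ i, 1 ≤ a i ∧ a i ≤ N i) ∧ p a}.ncard : ℝ) ≤ ∏ i, (N i : ℝ) := by
  classical
  rw [Pool.Agent.QDen.ncard_box N]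
  have h := Finset.card_filter_le (Fintype.piFinset fun i => Finset.Icc 1 (N i)) p
  rw [Fintype.card_piFinset] at h
  simp only [Nat.card_Icc, Nat.add_sub_cancel] at h
  exact_mod_cast h

theorem result :
    (∀ l d : ℕ, 2 ≤ l → ∃ C : ℕ, ∀ t : Fin l → ℂ, (∀ i, IsAlgebraic ℚ (Complex.exp (t i))) →
      ∀ X : ℕ, 16 ≤ X → ∀ N : Fin l → ℕ, (∀ i, X ≤ N i) →
      ({a : Fin l → ℕ | (∀ i, 1 ≤ a i ∧ a i ≤ N i) ∧
        ∃ P : MvPolynomial (Fin l) ℂ, P ≠ 0 ∧ P.totalDegree ≤ d ∧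
          (∀ m, IsAlgebraic ℚ (P.coeff m)) ∧
            MvPolynomial.eval (fun i => t i + (Real.log (a i) : ℂ)) P = 0}.ncard : ℝ) ≤
        C * Real.log (Real.log X) ^ C / Real.log X ^ 2 * ∏ i, (N i : ℝ)) ∧
    (∀ k l d : ℕ, ∃ D C : ℕ, ∀ x : Fin k → ℂ,
      (∀ P : MvPolynomial (Fin k) ℂ, (∀ m, IsAlgebraic ℚ (P.coeff m)) →
        P.totalDegree ≤ D → MvPolynomial.eval x P = 0 → P = 0) →
      ∀ t : Fin l → ℂ, (∀ i, IsAlgebraic ℚ (Complex.exp (t i))) →
      ∀ X : ℕ, 16 ≤ X → ∀ N : Fin l → ℕ, (∀ i, X ≤ N i) →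
      ({a : Fin l → ℕ | (∀ i, 1 ≤ a i ∧ a i ≤ N i) ∧
        ∃ P : MvPolynomial (Fin k ⊕ Fin l) ℂ, P ≠ 0 ∧ P.totalDegree ≤ d ∧
          (∀ m, IsAlgebraic ℚ (P.coeff m)) ∧
            MvPolynomial.eval (Sum.elim x fun i => t i + (Real.log (a i) : ℂ)) P = 0}.ncard : ℝ) ≤
        C * Real.log (Real.log X) ^ C / Real.log X * ∏ i, (N i : ℝ)) ∧
    (∀ k : ℕ, 0 < k → ∃ C : ℝ, ∀ x : Fin k → ℂ, AlgebraicIndependent ℚ x →
      ∀ t : ℂ, IsAlgebraic ℚ (Complex.exp t) → ∀ X : ℕ, 16 ≤ X →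
      ∀ d : ℕ, 1 ≤ d → (d : ℝ) ≤ Real.log (Real.log X) →
      ({a : ℕ | 1 ≤ a ∧ a ≤ X ∧ ∃ P : MvPolynomial (Fin (k + 1)) ℂ, P ≠ 0 ∧
        P.totalDegree ≤ d ∧ (∀ m, IsAlgebraic ℚ (P.coeff m)) ∧
          MvPolynomial.eval (Fin.cons (t + (Real.log a : ℂ)) x) P = 0}.ncard : ℝ) ≤
        C * X * Real.log (Real.log X) ^ (k + 1) *
          (Real.exp 1 * Real.log (Real.log X) / d) ^ d / Real.log X) := by
  refine ⟨fun l d hl => ?_, fun k l d => ?_, fun k hk => ?_⟩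
  · obtain ⟨C1, m, X0, hC1, h⟩ := Pool.Agent.QDen.tuplesT l d hl
    obtain ⟨C, hC⟩ := consts C1 m X0 2
    refine ⟨C, fun t ht X hX N hN => ?_⟩
    obtain ⟨hlog, hy, h1, h2⟩ := hC X hX
    rcases Nat.lt_or_ge X X0 with hX0 | hX0
    · refine (trivial_bound N _).trans ?_
      exact le_mul_of_one_le_left (by positivity) (h2 hX0)
    · refine (h t ht X hX0 N hN).trans (mul_le_mul_of_nonneg_right ?_ (by positivity))
      have h3 := h1 hX0
      push_cast at h3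
      exact h3
  · obtain ⟨D, C1, m, X0, hC1, h⟩ := Pool.Agent.QDen.tuplesX k l d
    obtain ⟨C, hC⟩ := consts C1 m X0 1
    refine ⟨D, C, fun x hx t ht X hX N hN => ?_⟩
    obtain ⟨hlog, hy, h1, h2⟩ := hC X hX
    rw [Nat.cast_one, one_mul, pow_one] at h1
    rw [pow_one] at h2
    rcases Nat.lt_or_ge X X0 with hX0 | hX0
    · refine (trivial_bound N _).trans ?_
      exact le_mul_of_one_le_left (by positivity) (h2 hX0)
    · refine (h x ?_ t ht X hX0 N hN).trans (mul_le_mul_of_nonneg_right (h1 hX0) (by positivity))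
      rintro ⟨P, h0, h1, h2, h3⟩
      exact h0 (hx P h2 h1 h3)
  · obtain ⟨C, hC, h⟩ := Pool.Agent.QDen.growT k hk
    refine ⟨C, fun x hx t ht X hX d hd hdX => ?_⟩
    refine le_trans ?_ (h x hx t ht X hX d hd hdX)
    rw [Nat.cast_le]
    refine Set.ncard_le_ncard ?_ ((Set.finite_Icc 1 X).subset fun a ha => ha.1)
    rintro a ⟨ha1, haX, P, hP0, hPd, hPa, hPe⟩
    exact ⟨⟨ha1, haX⟩, P, hP0, hPd, hPa, hPe⟩

end Pool.Agent.Results.MP_c9768e_nt.DensityTuples
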