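import Pool.Agent.QDen.TupS
import Pool.Agent.QDen.GrowS

/-!
# For almost all tuples of positive integers the logarithms satisfy no polynomial relation of
degree `≤ d`, also together with given numbers, with a bound for the exceptional set; growing
degree
-/

namespace Pool.Agent.Results.MP_c9768e_nt.DensityTuples

theorem result (l d k : ℕ) (ε : ℝ) (hε : 0 < ε) :
    (∃ X₀ : ℕ, ∀ t : Fin l → ℂ, (∀ i, IsAlgebraic ℚ (Complex.exp (t i))) →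
      ∀ X : ℕ, X₀ ≤ X → ∀ N : Fin l → ℕ, (∀ i, X ≤ N i) →
      ({a : Fin l → ℕ | (∀ i, 1 ≤ a i ∧ a i ≤ N i) ∧
        ∃ P : MvPolynomial (Fin l) ℂ, P ≠ 0 ∧ P.totalDegree ≤ d ∧
          (∀ m, IsAlgebraic ℚ (P.coeff m)) ∧
            MvPolynomial.eval (fun i => t i + (Real.log (a i) : ℂ)) P = 0}.ncard : ℝ) ≤
        (∏ i, (N i : ℝ)) / Real.log X ^ (1 - ε)) ∧
    (∃ D X₀ : ℕ, ∀ x : Fin k → ℂ,
      (∀ P : MvPolynomial (Fin k) ℂ, (∀ m, IsAlgebraic ℚ (P.coeff m)) →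
        P.totalDegree ≤ D → MvPolynomial.eval x P = 0 → P = 0) →
      ∀ t : Fin l → ℂ, (∀ i, IsAlgebraic ℚ (Complex.exp (t i))) → ∀ X : ℕ, X₀ ≤ X → ∀ N : Fin l → ℕ, (∀ i, X ≤ N i) →
        ({a : Fin l → ℕ | (∀ i, 1 ≤ a i ∧ a i ≤ N i) ∧
          ∃ P : MvPolynomial (Fin k ⊕ Fin l) ℂ, P ≠ 0 ∧ P.totalDegree ≤ d ∧
            (∀ m, IsAlgebraic ℚ (P.coeff m)) ∧
              MvPolynomial.eval (Sum.elim x fun i => t i + (Real.log (a i) : ℂ)) P = 0}.ncard : ℝ) ≤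
          (∏ i, (N i : ℝ)) / Real.log X ^ (1 - ε)) ∧
    (0 < k → ∀ κ : ℝ, 0 < κ → κ < 1 → ∃ X₀ : ℕ, ∀ x : Fin k → ℂ, AlgebraicIndependent ℚ x →
      ∀ t : ℂ, IsAlgebraic ℚ (Complex.exp t) → ∀ X : ℕ, X₀ ≤ X →
      ({a : ℕ | 1 ≤ a ∧ a ≤ X ∧ ∃ P : MvPolynomial (Fin (k + 1)) ℂ, P ≠ 0 ∧
        (P.totalDegree : ℝ) ≤ κ * Real.log (Real.log X) ∧
          (∀ m, IsAlgebraic ℚ (P.coeff m)) ∧
            MvPolynomial.eval (Fin.cons (t + (Real.log a : ℂ)) x) P = 0}.ncard : ℝ) ≤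
        X / Real.log X ^ (1 - κ + κ * Real.log κ - ε)) := by
  have hdiv : ∀ X : ℕ, 3 ≤ X → ∀ A c : ℝ,
      Real.exp (-(c * Real.log (Real.log X))) * A = A / Real.log X ^ c := by
    intro X hX A c
    have hX3 : (3 : ℝ) ≤ X := by exact_mod_cast hX
    have hlog : 1 < Real.log X := by
      rw [Real.lt_log_iff_exp_lt (by linarith)]
      linarith [Real.exp_one_lt_d9]
    rw [Real.rpow_def_of_pos (by linarith), div_eq_mul_inv, ← Real.exp_neg, mul_comm,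
      mul_comm (Real.log (Real.log X)) c]
  have hll : ∀ X : ℕ, 3 ≤ X → 0 ≤ Real.log (Real.log X) := by
    intro X hX
    have hX3 : (3 : ℝ) ≤ X := by exact_mod_cast hX
    refine Real.log_nonneg ?_
    rw [Real.le_log_iff_exp_le (by linarith)]
    linarith [Real.exp_one_lt_d9]
  obtain ⟨ε', hε', hε1, hεε⟩ : ∃ ε' : ℝ, 0 < ε' ∧ ε' ≤ 1 ∧ ε' ≤ ε :=
    ⟨min ε 1, lt_min hε one_pos, min_le_right _ _, min_le_left _ _⟩
  have key : ∀ k : ℕ, ∃ D X₀ : ℕ, ∀ x : Fin k → ℂ, ¬ Pool.Agent.QDen.Rel (Fin k) D x →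
      ∀ t : Fin l → ℂ, (∀ i, IsAlgebraic ℚ (Complex.exp (t i))) → ∀ X : ℕ, X₀ ≤ X → ∀ N : Fin l → ℕ, (∀ i, X ≤ N i) →
      ({a : Fin l → ℕ | (∀ i, 1 ≤ a i ∧ a i ≤ N i) ∧
        Pool.Agent.QDen.Rel (Fin k ⊕ Fin l) d
          (Sum.elim x fun i => t i + ((Real.log (a i : ℝ) : ℝ) : ℂ))}.ncard : ℝ) ≤
        (∏ i, (N i : ℝ)) / Real.log X ^ (1 - ε) := by
    intro k
    obtain ⟨D, X0, h⟩ := Pool.Agent.QDen.tuplesS k l d ε' hε' hε1
    refine ⟨D, max X0 3, fun x hx t ht X hX N hN => ?_⟩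
    have hX3 : 3 ≤ X := (le_max_right _ _).trans hX
    refine (h x hx t ht X ((le_max_left _ _).trans hX) N hN).trans ?_
    rw [← hdiv X hX3]
    refine mul_le_mul_of_nonneg_right (Real.exp_le_exp.2 ?_) (by positivity)
    have := mul_le_mul_of_nonneg_right (show 1 - ε ≤ 1 - ε' by linarith) (hll X hX3)
    linarith
  refine ⟨?_, ?_, fun hk κ hκ hκ1 => ?_⟩
  · obtain ⟨D, X0, h⟩ := key 0
    refine ⟨X0, fun t ht X hX N hN => ?_⟩
    have h1 := h Fin.elim0 (Pool.Agent.QDen.not_rel_of_algInd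
      (algebraicIndependent_empty_type (K := ℚ)) D) t ht X hX N hN
    refine le_trans ?_ h1
    rw [Nat.cast_le]
    refine Set.ncard_le_ncard ?_ ?_
    · rintro a ⟨ha, hP⟩
      exact ⟨ha, Pool.Agent.QDen.rel_of_injective (Sum.inr : Fin l → Fin 0 ⊕ Fin l)
        Sum.inr_injective hP⟩
    · refine (Set.Finite.pi' fun i => Set.finite_Icc 1 (N i)).subset ?_
      rintro a ⟨ha, -⟩ i
      exact ha i
  · obtain ⟨D, X0, h⟩ := key k
    refine ⟨D, X0, fun x hx t ht X hX N hN => h x ?_ t ht X hX N hN⟩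
    rintro ⟨P, h0, h1, h2, h3⟩
    exact h0 (hx P h2 h1 h3)
  · obtain ⟨X0, h⟩ := Pool.Agent.QDen.growS k hk κ ε hκ hκ1 hε
    refine ⟨max X0 3, fun x hx t ht X hX => ?_⟩
    have hX3 : 3 ≤ X := (le_max_right _ _).trans hX
    have h1 := h x hx t ht X ((le_max_left _ _).trans hX)
    rw [mul_comm (X : ℝ) (Real.exp _), hdiv X hX3] at h1
    refine le_trans ?_ h1
    rw [Nat.cast_le]
    refine Set.ncard_le_ncard ?_ ((Set.finite_Icc 1 X).subset fun a ha => ha.1)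
    rintro a ⟨ha1, haX, P, hP0, hPd, hPa, hPe⟩
    exact ⟨⟨ha1, haX⟩, P, hP0, Nat.le_floor hPd, hPa, hPe⟩

end Pool.Agent.Results.MP_c9768e_nt.DensityTuples
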