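import Pool.Agent.QT.RowsAB

/-!
# Almost all tuples of logarithms and elliptic logarithms satisfy no relation of degree at most
`d` over the algebraic numbers
-/

namespace Pool.Agent.HeldC97.LogTuples

open MvPolynomial

theorem result (k s r d : ℕ) (hs : 0 < s) (hd : 0 < d) (x : Fin k → ℂ)
    (hx : ∀ P : MvPolynomial (Fin k) ℂ, (∀ e, IsAlgebraic ℚ (P.coeff e)) → P.totalDegree ≤ d →
      eval x P = 0 → P = 0)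
    (c : Fin s → ℂ) (t : Fin s → Fin r → ℂ)
    (ht : ∀ i, (LinearIndependent ℚ (t i) ∧ ∀ j, IsAlgebraic ℚ (Complex.exp (t i j))) ∨
      ∃ ω₁ ω₂ : ℂ, (ω₂ / ω₁).im ≠ 0 ∧
        IsAlgebraic ℚ (60 * ∑' q : ℤ × ℤ,
          if q = 0 then (0 : ℂ) else 1 / ((q.1 : ℂ) * ω₁ + (q.2 : ℂ) * ω₂) ^ 4) ∧
        IsAlgebraic ℚ (140 * ∑' q : ℤ × ℤ,
          if q = 0 then (0 : ℂ) else 1 / ((q.1 : ℂ) * ω₁ + (q.2 : ℂ) * ω₂) ^ 6) ∧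
        (∀ j, (∃ a b : ℤ, t i j = (a : ℂ) * ω₁ + (b : ℂ) * ω₂) ∨
          IsAlgebraic ℚ (1 / t i j ^ 2 + ∑' q : ℤ × ℤ,
            if q = 0 then (0 : ℂ) else
              (1 / (t i j - ((q.1 : ℂ) * ω₁ + (q.2 : ℂ) * ω₂)) ^ 2
                - 1 / ((q.1 : ℂ) * ω₁ + (q.2 : ℂ) * ω₂) ^ 2))) ∧
        ∀ a : Fin r → ℂ, (∀ j, ∃ p q p' q' : ℚ,
          a j * ω₁ = (p : ℂ) * ω₁ + (q : ℂ) * ω₂ ∧
            a j * ω₂ = (p' : ℂ) * ω₁ + (q' : ℂ) * ω₂) →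
          ∑ j, a j * t i j = 0 → ∀ j, a j = 0) :
    ∃ C : ℕ, ∀ H : ℕ, Set.ncard {M : Fin s → Fin r → ℤ | (∀ i j, |M i j| ≤ H) ∧
      ∃ P : MvPolynomial (Fin k ⊕ Fin s) ℂ, P ≠ 0 ∧ (∀ e, IsAlgebraic ℚ (P.coeff e)) ∧
        P.totalDegree ≤ d ∧
        eval (Sum.elim x fun i => c i + ∑ j, (M i j : ℂ) * t i j) P = 0} ≤
      C * (2 * H + 1) ^ ((s - 1) * r + ((k + (s - 1) + d).choose d - 1)) :=
  Pool.Agent.QT.tuples_count k s r d hs hd x hx c t fun i =>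
    Pool.Agent.QT.indepAB (t i) (ht i)

end Pool.Agent.HeldC97.LogTuples
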