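import Pool.Agent.CHU.ThmA5

/-!
# Numbers `p` with `ζ(p)` algebraic, for lattices with complex multiplication

Let `Ω = ℤω₁ + ℤω₂` be a lattice with algebraic `g₂, g₃` whose endomorphism field is not `ℚ`
(complex multiplication). Let `p ∉ Ω` be such that the Weierstrass zeta value `ζ(p)` is algebraic.
Then `p` and `π` are algebraically independent, or `p` and `ω₁` are algebraically independent. In
particular `p` is transcendental (the case `(s, m, n) = (0, 0, 1)` of the problem).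
-/

namespace Pool.Agent.Results.MP_c9768e_nt.ZetaCM

theorem result (ω₁ ω₂ : ℂ) (him : (ω₂ / ω₁).im ≠ 0)
    (hg2 : IsAlgebraic ℚ (60 * ∑' q : ℤ × ℤ,
      if q = 0 then (0 : ℂ) else 1 / ((q.1 : ℂ) * ω₁ + (q.2 : ℂ) * ω₂) ^ 4))
    (hg3 : IsAlgebraic ℚ (140 * ∑' q : ℤ × ℤ,
      if q = 0 then (0 : ℂ) else 1 / ((q.1 : ℂ) * ω₁ + (q.2 : ℂ) * ω₂) ^ 6))
    (hCM : ∃ c : ℂ, (∀ q : ℚ, c ≠ q) ∧ ∃ a b a' b' : ℚ,
      c * ω₁ = (a : ℂ) * ω₁ + (b : ℂ) * ω₂ ∧ c * ω₂ = (a' : ℂ) * ω₁ + (b' : ℂ) * ω₂)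
    (p : ℂ) (hp : ∀ a b : ℤ, p ≠ (a : ℂ) * ω₁ + (b : ℂ) * ω₂)
    (hζ : IsAlgebraic ℚ (1 / p + ∑' q : ℤ × ℤ,
          if q = 0 then (0 : ℂ) else
            (1 / (p - ((q.1 : ℂ) * ω₁ + (q.2 : ℂ) * ω₂))
              + 1 / ((q.1 : ℂ) * ω₁ + (q.2 : ℂ) * ω₂)
              + p / ((q.1 : ℂ) * ω₁ + (q.2 : ℂ) * ω₂) ^ 2))) :
    AlgebraicIndependent ℚ ![p, (Real.pi : ℂ)] ∨ AlgebraicIndependent ℚ ![p, ω₁] :=
  Pool.Agent.CHU.thmB2 ω₁ ω₂ him hg2 hg3 hCM p hp hζ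

end Pool.Agent.Results.MP_c9768e_nt.ZetaCM
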