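import Pool.Agent.ZFR.MainV

/-!
# Points with algebraic Weierstrass zeta value in a finite-dimensional `ℚ`-subspace of `ℂ`

Let `Ω = ℤω₁ + ℤω₂` be a lattice with algebraic `g₂`, `g₃` (with or without complex multiplication)
and let `V` be a `ℚ`-subspace of `ℂ` of finite dimension `r`. At most `7 ^ r` elements `p` of
`V ∖ Ω` have an algebraic value `ζ(p)` (of any degree).
-/

namespace Pool.Agent.Results.MP_c9768e_nt.ZetaFiniteRank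

theorem result (ω₁ ω₂ : ℂ) (him : (ω₂ / ω₁).im ≠ 0)
    (hg2 : IsAlgebraic ℚ (60 * ∑' q : ℤ × ℤ,
      if q = 0 then (0 : ℂ) else 1 / ((q.1 : ℂ) * ω₁ + (q.2 : ℂ) * ω₂) ^ 4))
    (hg3 : IsAlgebraic ℚ (140 * ∑' q : ℤ × ℤ,
      if q = 0 then (0 : ℂ) else 1 / ((q.1 : ℂ) * ω₁ + (q.2 : ℂ) * ω₂) ^ 6))
    (V : Submodule ℚ ℂ) [FiniteDimensional ℚ V] :
    {p : ℂ | p ∈ V ∧ (∀ a b : ℤ, p ≠ (a : ℂ) * ω₁ + (b : ℂ) * ω₂) ∧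
      IsAlgebraic ℚ (1 / p + ∑' q : ℤ × ℤ,
          if q = 0 then (0 : ℂ) else
            (1 / (p - ((q.1 : ℂ) * ω₁ + (q.2 : ℂ) * ω₂))
              + 1 / ((q.1 : ℂ) * ω₁ + (q.2 : ℂ) * ω₂)
              + p / ((q.1 : ℂ) * ω₁ + (q.2 : ℂ) * ω₂) ^ 2))}.Finite ∧
    {p : ℂ | p ∈ V ∧ (∀ a b : ℤ, p ≠ (a : ℂ) * ω₁ + (b : ℂ) * ω₂) ∧
      IsAlgebraic ℚ (1 / p + ∑' q : ℤ × ℤ,
          if q = 0 then (0 : ℂ) else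
            (1 / (p - ((q.1 : ℂ) * ω₁ + (q.2 : ℂ) * ω₂))
              + 1 / ((q.1 : ℂ) * ω₁ + (q.2 : ℂ) * ω₂)
              + p / ((q.1 : ℂ) * ω₁ + (q.2 : ℂ) * ω₂) ^ 2))}.ncard ≤
        7 ^ Module.finrank ℚ V :=
  Pool.Agent.ZFR.mainV ω₁ ω₂ him hg2 hg3 V _ fun _ hp => hp

end Pool.Agent.Results.MP_c9768e_nt.ZetaFiniteRank
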